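import Pool.Agent.H104.MZ.Stm

/-! Project MZ (helper104), job NRM: the norm of integer polynomials. -/

set_option autoImplicit false

open Polynomial Finset

namespace Pool.Agent.Q187.MZ

open Pool.Agent.H104.MZ

theorem nrm_eq (L : ℤ[X]) (s : Finset ℕ) (hs : L.support ⊆ s) :
    nrm L = ∑ i ∈ s, (L.coeff i).natAbs := by
  unfold nrm
  refine Finset.sum_subset hs fun i _ hi => ?_
  rw [Polynomial.notMem_support_iff.1 hi]
  rfl

theorem nrm_zero : nrm 0 = 0 := by
  simp [nrm]

theorem nrm_add_le (P Q : ℤ[X]) : nrm (P + Q) ≤ nrm P + nrm Q := by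
  have h1 : (P + Q).support ⊆ P.support ∪ Q.support := Polynomial.support_add
  rw [nrm_eq _ _ h1, nrm_eq P _ Finset.subset_union_left, nrm_eq Q _ Finset.subset_union_right,
    ← Finset.sum_add_distrib]
  refine Finset.sum_le_sum fun i _ => ?_
  rw [Polynomial.coeff_add]
  exact Int.natAbs_add_le _ _

theorem nrm_sum_le {ι : Type} (s : Finset ι) (f : ι → ℤ[X]) :
    nrm (∑ i ∈ s, f i) ≤ ∑ i ∈ s, nrm (f i) := by
  classical
  induction s using Finset.induction_on with
  | empty => simp [nrm_zero]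
  | insert a s ha ih =>
    rw [Finset.sum_insert ha, Finset.sum_insert ha]
    exact (nrm_add_le _ _).trans (Nat.add_le_add_left ih _)

theorem nrm_C_mul (a : ℤ) (P : ℤ[X]) : nrm (C a * P) ≤ a.natAbs * nrm P := by
  have h1 : (C a * P).support ⊆ P.support := by
    intro i hi
    rw [Polynomial.mem_support_iff] at hi ⊢
    intro h
    rw [Polynomial.coeff_C_mul, h, mul_zero] at hi
    exact hi rfl
  rw [nrm_eq _ _ h1, nrm, Finset.mul_sum]
  refine Finset.sum_le_sum fun i _ => ?_
  rw [Polynomial.coeff_C_mul, Int.natAbs_mul]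

theorem nrm_X_mul (P : ℤ[X]) : nrm (X * P) ≤ nrm P := by
  have h1 : (X * P).support ⊆ P.support.image Nat.succ := by
    intro i hi
    rw [Polynomial.mem_support_iff] at hi
    rcases i with _ | i
    · rw [Polynomial.coeff_X_mul_zero] at hi
      exact absurd rfl hi
    · rw [Polynomial.coeff_X_mul] at hi
      exact Finset.mem_image.2 ⟨i, Polynomial.mem_support_iff.2 hi, rfl⟩
  rw [nrm_eq _ _ h1, Finset.sum_image fun a _ b _ h => Nat.succ_injective h, nrm]
  refine Finset.sum_le_sum fun i _ => ?_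
  rw [Nat.succ_eq_add_one, Polynomial.coeff_X_mul]

theorem nrm_X_pow_mul (n : ℕ) (P : ℤ[X]) : nrm (X ^ n * P) ≤ nrm P := by
  induction n with
  | zero => rw [pow_zero, one_mul]
  | succ n ih =>
    rw [pow_succ', mul_assoc]
    exact (nrm_X_mul _).trans ih

theorem nrm_mul_le (P Q : ℤ[X]) : nrm (P * Q) ≤ nrm P * nrm Q := by
  have h1 : P * Q = ∑ i ∈ P.support, C (P.coeff i) * (X ^ i * Q) := by
    conv_lhs => rw [P.as_sum_support_C_mul_X_pow]
    rw [Finset.sum_mul]
    refine Finset.sum_congr rfl fun i _ => ?_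
    rw [mul_assoc]
  rw [h1]
  refine (nrm_sum_le _ _).trans ?_
  rw [nrm, Finset.sum_mul]
  refine Finset.sum_le_sum fun i _ => ?_
  exact (nrm_C_mul _ _).trans (Nat.mul_le_mul_left _ (nrm_X_pow_mul _ _))

theorem nrm_one : nrm 1 ≤ 1 := by
  have h : (1 : ℤ[X]).support ⊆ {0} := by
    rw [← Polynomial.C_1]
    exact Polynomial.support_C_subset 1
  rw [nrm_eq _ _ h, Finset.sum_singleton, Polynomial.coeff_one_zero]
  rfl

theorem nrm_pow_le (P : ℤ[X]) (M : ℕ) : nrm (P ^ M) ≤ nrm P ^ M := by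
  induction M with
  | zero =>
    rw [pow_zero, pow_zero]
    exact nrm_one
  | succ M ih =>
    rw [pow_succ, pow_succ]
    exact (nrm_mul_le _ _).trans (Nat.mul_le_mul_right _ ih)

theorem nrm_expand (L : ℤ[X]) (σ : ℕ) (hσ : 1 ≤ σ) : nrm (expand ℤ σ L) ≤ nrm L := by
  have h1 : (expand ℤ σ L).support ⊆ L.support.image (fun i => i * σ) := by
    intro i hi
    rw [Polynomial.mem_support_iff, Polynomial.coeff_expand hσ] at hi
    by_cases h : σ ∣ i
    · rw [if_pos h] at hi
      exact Finset.mem_image.2 ⟨i / σ, Polynomial.mem_support_iff.2 hi, Nat.div_mul_cancel h⟩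
    · rw [if_neg h] at hi
      exact absurd rfl hi
  rw [nrm_eq _ _ h1, Finset.sum_image fun a _ b _ h => Nat.eq_of_mul_eq_mul_right hσ h, nrm]
  refine Finset.sum_le_sum fun i _ => ?_
  rw [Polynomial.coeff_expand_mul hσ]

theorem t_NRM : S_NRM := by
  intro L σ M hσ
  refine ⟨?_, ?_, fun k hk => ?_⟩
  · exact (nrm_pow_le _ _).trans (Nat.pow_le_pow_left (nrm_expand L σ hσ) M)
  · refine Polynomial.natDegree_pow_le.trans ?_
    rw [Polynomial.natDegree_expand]
    apply le_of_eq
    ring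
  · have h1 : (X - 1 : ℤ[X]) ^ k ∣ expand ℤ σ L := by
      obtain ⟨R, hR⟩ := hk
      rw [hR, map_mul, map_pow, map_sub, Polynomial.expand_X, map_one]
      refine Dvd.dvd.mul_right (pow_dvd_pow_of_dvd ?_ k) _
      have := sub_dvd_pow_sub_pow (X : ℤ[X]) 1 σ
      rwa [one_pow] at this
    rw [pow_mul]
    exact pow_dvd_pow_of_dvd h1 M

theorem t_NTR : S_NTR := by
  intro L hL
  have h1 : L.support ⊆ range (L.natDegree + 1) := Polynomial.supp_subset_range_natDegree_succ
  rw [nrm_eq _ _ h1]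
  calc ∑ i ∈ range (L.natDegree + 1), (L.coeff i).natAbs
      ≤ ∑ _i ∈ range (L.natDegree + 1), 1 := by
        refine Finset.sum_le_sum fun i _ => ?_
        rcases hL i with h | h | h <;> rw [h] <;> decide
    _ = L.natDegree + 1 := by simp

end Pool.Agent.Q187.MZ
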